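import Mathlib

/-!
# P3-C, CL4b: generic points of components of the closure of the image of a family of points
-/

namespace Pool.Agent.helper56.P3

/-- generic points of components of the closure of the image of `s` -/
theorem exists_generic_field {T : Type} (s : T → Fin 2 → ℂ) (q : Ideal (MvPolynomial (Fin 2) ℂ))
    (I : Ideal (MvPolynomial (Fin 2) ℂ)) (hI : ∀ P, P ∈ I ↔ ∀ t, MvPolynomial.eval (s t) P = 0)
    (hq : q ∈ I.minimalPrimes) :
    ∃ (K : Type) (_ : Field K) (ψ : (T → ℂ) →+* K),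
      ∀ P, ψ (fun t => MvPolynomial.eval (s t) P) = 0 ↔ P ∈ q := by
  let e : MvPolynomial (Fin 2) ℂ →+* (T → ℂ) := RingHom.pi fun t => MvPolynomial.eval (s t)
  have he : ∀ P, e P = fun t => MvPolynomial.eval (s t) P := fun P => rfl
  have h1 : (⊥ : Ideal (T → ℂ)).comap e = I := by
    ext P
    rw [Ideal.mem_comap, Ideal.mem_bot, hI, he]
    constructor
    · intro h t
      exact congrFun h t
    · intro h
      funext t
      exact h t
  rw [← h1] at hq
  obtain ⟨Q, hQp, -, hQ⟩ := Ideal.exists_comap_eq_of_mem_minimalPrimes e q hq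
  refine ⟨FractionRing ((T → ℂ) ⧸ Q), inferInstance,
    (algebraMap ((T → ℂ) ⧸ Q) (FractionRing ((T → ℂ) ⧸ Q))).comp (Ideal.Quotient.mk Q), ?_⟩
  intro P
  rw [← he, RingHom.comp_apply, ← hQ, Ideal.mem_comap, ← Ideal.Quotient.eq_zero_iff_mem]
  constructor
  · intro h
    exact (IsFractionRing.injective ((T → ℂ) ⧸ Q) (FractionRing ((T → ℂ) ⧸ Q)))
      (h.trans (map_zero _).symm)
  · intro h
    rw [h, map_zero]

end Pool.Agent.helper56.P3
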